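import Pool.Agent.H.MP_e9cdae_an.D

namespace Pool.Agent.Results.MP_e9cdae_an.Main

open Set Metric MeasureTheory Filter Topology
open scoped ENNReal NNReal RealInnerProductSpace ContDiff

/-- `u` is a nonzero continuous function vanishing off `Ω` with weak gradient `G` in `L^p`. -/
def adm {m : ℕ} (p : ℝ) (Ω : Set (EuclideanSpace ℝ (Fin m))) (u : EuclideanSpace ℝ (Fin m) → ℝ)
    (G : EuclideanSpace ℝ (Fin m) → EuclideanSpace ℝ (Fin m)) : Prop :=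
  Continuous u ∧ MemLp G (ENNReal.ofReal p) volume ∧
    (∀ φ : EuclideanSpace ℝ (Fin m) → ℝ, ContDiff ℝ ∞ φ → HasCompactSupport φ →
      ∀ z, ∫ x, u x * fderiv ℝ φ x z = -∫ x, ⟪G x, z⟫ * φ x) ∧
    (∀ x, x ∉ Ω → u x = 0) ∧ u ≠ 0

/-- the Hardy-Morrey quotient -/
noncomputable def R {m : ℕ} (p : ℝ) (Ω : Set (EuclideanSpace ℝ (Fin m)))
    (u : EuclideanSpace ℝ (Fin m) → ℝ)
    (G : EuclideanSpace ℝ (Fin m) → EuclideanSpace ℝ (Fin m)) : ℝ≥0∞ :=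
  (∫⁻ x, ‖G x‖ₑ ^ p) /
    (⨆ x ∈ Ω, ENNReal.ofReal (|u x| / infDist x Ωᶜ ^ (1 - (m : ℝ) / p))) ^ p

/-- `u` is an extremal: its quotient equals the infimum of all quotients -/
def Ext {m : ℕ} (p : ℝ) (Ω : Set (EuclideanSpace ℝ (Fin m))) (u : EuclideanSpace ℝ (Fin m) → ℝ) :
    Prop :=
  ∃ G, adm p Ω u G ∧ R p Ω u G = ⨅ (v) (H) (_ : adm p Ω v H), R p Ω v H

open Pool.Agent.H.MP_e9cdae_an in
theorem result : ∃ Ω : Set (EuclideanSpace ℝ (Fin 2)), IsOpen Ω ∧ IsConnected Ω ∧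
    Bornology.IsBounded Ω ∧ ∃ u v : EuclideanSpace ℝ (Fin 2) → ℝ, Ext 4 Ω u ∧ Ext 4 Ω v ∧
      ∀ (c r : ℝ) (Q : EuclideanSpace ℝ (Fin 2) ≃ₗᵢ[ℝ] EuclideanSpace ℝ (Fin 2))
        (b : EuclideanSpace ℝ (Fin 2)), c ≠ 0 → 0 < r → (fun x => r • Q x + b) '' Ω = Ω →
        v ≠ fun x => c * u (r • Q x + b) := by
  obtain ⟨s, t, m, x, y, s0, s4, t0, t4, m0, hx, hy, hxy, hS, hx1, hy1⟩ := geo
  have hc := conn s4 t4
  have hr := fun r => rig (r := r) s4 t4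
  have h0 := K0 s0 t
  have hK := Kc s t
  have hb : ∀ z, 2 ≤ ‖z‖ → z ∈ Kh s t := fun z h => Or.inr (Or.inr h)
  generalize Kh s t = K at *
  have d0 : ∀ z, z ∉ K → 0 < √(infDist z K) := fun z hz =>
    Real.sqrt_pos.2 ((hK.notMem_iff_infDist_pos ⟨0, h0⟩).1 hz)
  have p4 : ENNReal.ofReal 4 = 4 := by simp
  have hα : ∀ d : ℝ, d ^ (1 - ((2 : ℕ) : ℝ) / 4) = √d := fun d => by
    rw [Real.sqrt_eq_rpow]; norm_num
  have hs : ∀ U : E → ℝ, (∀ z, z ∉ Kᶜ → U z = 0) → HasCompactSupport U := fun U h =>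
    HasCompactSupport.intro (isCompact_closedBall 0 2) fun z hz =>
      h z (not_not.2 (hb z (not_le.1 (mt mem_closedBall_zero_iff.2 hz)).le))
  have hdiv : ∀ g : ℝ, 0 < g → ENNReal.ofReal (g ^ 4) / ENNReal.ofReal (m * g) ^ (4 : ℝ) =
      ENNReal.ofReal (1 / m ^ 4) := fun g hg => by
    rw [ENNReal.ofReal_rpow_of_pos (by positivity), ← ENNReal.ofReal_div_of_pos (by positivity)]
    congr 1
    rw [show (4 : ℝ) = (4 : ℕ) by norm_num, Real.rpow_natCast]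
    field_simp
  have low : ∀ v H, adm 4 Kᶜ v H → ENNReal.ofReal (1 / m ^ 4) ≤ R 4 Kᶜ v H := by
    rintro v H ⟨h1, h2, h3, h4, h5⟩
    rw [p4] at h2
    have h6 := weak h1 (hs v h4) h2 h3 (K := K) (fun z hz => h4 z (not_not.2 hz)) h0
    obtain ⟨z, hz⟩ := Function.ne_iff.1 h5
    have g0 : 0 < ‖h2.toLp H‖ := (norm_nonneg _).lt_of_ne fun h =>
      hz (abs_nonpos_iff.1 (by simpa [← h] using h6 z))
    rw [← hdiv _ g0, R, en4 h2]
    refine ENNReal.div_le_div_left (ENNReal.rpow_le_rpow (iSup₂_le fun z hz =>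
      ENNReal.ofReal_le_ofReal ?_) (by norm_num)) _
    rw [compl_compl, hα, div_le_iff₀ (d0 z hz), mul_right_comm]
    exact (h6 z).trans (mul_le_mul_of_nonneg_right (hS z hz) g0.le)
  have cand : ∀ x, x ∉ K → m * √(infDist x K) ≤ S K x 0 → ∃ U, Ext 4 Kᶜ U ∧
      (∀ z, z ∉ K → |U z| ≤ m * √(infDist z K)) ∧ m * √(infDist x K) ≤ U x ∧
      ∀ η > 0, ∃ w, Ad K w ∧ ∀ z, |w z - U z| ≤ η := by
    intro x hx h
    have hp := mul_pos m0 (d0 x hx)
    obtain ⟨U, G, h1, h2, h3, h4, h5⟩ := exw h0 (hp.trans_le h)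
    have h6 : ∀ z, z ∉ Kᶜ → U z = 0 := fun z hz => h4 z (not_not.1 hz)
    have ha : adm 4 Kᶜ U G := ⟨h1, by rw [p4]; exact Lp.memLp G, h3, h6, fun h0 => by
      rw [h0, Pi.zero_apply] at h5; linarith⟩
    have h7 : ‖(Lp.memLp G).toLp G‖ ≤ 1 := by rwa [Lp.toLp_coeFn]
    refine ⟨U, ⟨G, ha, le_antisymm (le_iInf fun v => le_iInf fun H => le_iInf fun hv =>
      le_trans ?_ (low v H hv)) (iInf_le_of_le U (iInf_le_of_le G (iInf_le _ ha)))⟩,
      fun z hz => (weak h1 (hs U h6) (Lp.memLp G) h3 h4 h0 z).trans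
        ((mul_le_of_le_one_right (S0 _ _ _) h7).trans (hS z hz)), h.trans h5, fun η hη => ?_⟩
    · rw [← hdiv 1 one_pos, R, en4 (Lp.memLp G)]
      refine ENNReal.div_le_div (ENNReal.ofReal_le_ofReal (by gcongr)) (ENNReal.rpow_le_rpow
        (le_iSup₂_of_le x hx (ENNReal.ofReal_le_ofReal ?_)) (by norm_num))
      rw [compl_compl, hα, le_div_iff₀ (d0 x hx), mul_one]
      exact (h.trans h5).trans (le_abs_self _)
    · obtain ⟨w, h8, h9, h10, h11⟩ := apx h1 (hs U h6) (Lp.memLp G) h3 h4 (ε := η / 3) (by positivity)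
      exact ⟨w, ⟨h8, h9, h10.trans h7⟩, fun z => (h11 z).trans (by linarith)⟩
  obtain ⟨u, u1, -, u3, u4⟩ := cand x hx hx1
  obtain ⟨v, v1, v2, v3, -⟩ := cand y hy hy1
  refine ⟨Kᶜ, hK.isOpen_compl, hc, isBounded_ball.subset (fun z hz => mem_ball_zero_iff.2
    (not_le.1 (mt (hb z) hz))), u, v, u1, v1, fun c r Q b _ r0 hT hv => ?_⟩
  obtain ⟨rfl, rfl⟩ := hr r r0 Q b hT
  simp only [one_smul, add_zero] at hT hv
  have hQ : ∀ z, infDist (Q z) K = infDist z K := fun z => by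
    have h1 : Q '' K = K := compl_injective (by rw [← image_compl_eq Q.bijective]; exact hT)
    conv_lhs => rw [← h1]
    exact infDist_image Q.isometry
  have px := mul_pos m0 (d0 x hx)
  have py := mul_pos m0 (d0 y hy)
  have c1 : |c| ≤ 1 := by
    obtain ⟨z, hz, rfl⟩ := hT.ge hx
    have h1 := v2 z hz
    rw [hv, abs_mul, ← hQ] at h1
    exact le_of_mul_le_mul_right (le_trans (mul_le_mul_of_nonneg_left (u3.trans (le_abs_self _))
      (abs_nonneg c)) (h1.trans_eq (one_mul _).symm)) px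
  have hy' : Q y ∉ K := hT.le (mem_image_of_mem _ hy)
  have h2 : m * √(infDist y K) ≤ |u (Q y)| := by
    have h1 := v3.trans (le_abs_self _)
    rw [hv, abs_mul] at h1
    exact h1.trans (mul_le_of_le_one_left (abs_nonneg _) c1)
  have h3 : ∀ a b η : ℝ, |a - b| ≤ η → |b| - η ≤ |a| := fun a b η h => by
    have := abs_sub_abs_le_abs_sub b a
    rw [abs_sub_comm] at this
    linarith
  refine uniq hK h0 hx (x' := Q y) (fun h => hxy (by rw [h, Q.norm_map])) (px.trans_le hx1) ?_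
    fun η hη => ?_
  · obtain ⟨w, h4, h5⟩ := u4 _ (half_pos py)
    have h6 := le_S h4.1 h4.2.1 (Q y) 0
    rw [h4.2.1 0 h0, sub_zero] at h6
    linarith [h3 _ _ _ (h5 (Q y)), mul_le_of_le_one_right (S0 K (Q y) 0) h4.2.2]
  · obtain ⟨w, h4, h5⟩ := u4 η hη
    have h6 := hS _ hy'
    rw [hQ] at h6
    exact ⟨w, h4, by linarith [h3 _ _ _ (h5 x), hS x hx, le_abs_self (u x)],
      by linarith [h3 _ _ _ (h5 (Q y))]⟩

end Pool.Agent.Results.MP_e9cdae_an.Main
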